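import Mathlib
import Pool.Agent.E8helper61.SI.Stm3
import Pool.Agent.H297.Coupling2

set_option autoImplicit false

open Finset

namespace Pool.Agent.E8helper82.SI

open Pool.Agent.E8helper61.SI
open Pool.Agent.H297 (Ex Ex_insert Ex_congr)

lemma Mf_pos {lam x : ℝ} (hx : 1 ≤ x) (hx2 : x ≤ 2) : 0 < Mf lam x := by
  unfold Mf
  have h1 : 0 < x ^ (1 - lam) := Real.rpow_pos_of_pos (by linarith) _
  have h2 : 0 ≤ (2 - x) ^ (1 - lam) := Real.rpow_nonneg (by linarith) _
  linarith

/-- The predictable parameter. -/
noncomputable def xpar (H0 H1 : ℝ) : ℝ := if H0 + H1 = 0 then 1 else 2 * max H0 H1 / (H0 + H1)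

lemma xpar_comm (H0 H1 : ℝ) : xpar H0 H1 = xpar H1 H0 := by
  unfold xpar; rw [add_comm, max_comm]

lemma xpar_bounds {H0 H1 : ℝ} (h0 : 0 ≤ H0) (h1 : 0 ≤ H1) :
    1 ≤ xpar H0 H1 ∧ xpar H0 H1 ≤ 2 := by
  unfold xpar
  split_ifs with h
  · exact ⟨le_refl _, by norm_num⟩
  · have hS : 0 < H0 + H1 := lt_of_le_of_ne (by linarith) (Ne.symm h)
    constructor
    · rw [le_div_iff₀ hS]
      have a1 := le_max_left H0 H1
      have a2 := le_max_right H0 H1
      linarith
    · rw [div_le_iff₀ hS]
      have : max H0 H1 ≤ H0 + H1 := max_le (by linarith) (by linarith)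
      linarith

lemma q_le {H0 H1 : ℝ} (h0 : 0 ≤ H0) (h1 : 0 ≤ H1) :
    max 0 ((H0 - H1) / (2 * H0)) ≤ 1 - 1 / xpar H0 H1 := by
  have hb := xpar_bounds h0 h1
  have hpos : 0 ≤ 1 - 1 / xpar H0 H1 := by
    have : 1 / xpar H0 H1 ≤ 1 := by
      rw [div_le_one (by linarith)]; exact hb.1
    linarith
  apply max_le hpos
  rcases le_total H0 H1 with h | h
  · exact le_trans (div_nonpos_of_nonpos_of_nonneg (by linarith) (by linarith)) hpos
  · rcases h0.eq_or_lt with h' | h'
    · rw [show 2 * H0 = 0 by linarith, div_zero]; exact hpos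
    · have hS : H0 + H1 ≠ 0 := by linarith
      have : xpar H0 H1 = 2 * H0 / (H0 + H1) := by
        unfold xpar; rw [if_neg hS, max_eq_left h]
      rw [this]
      have : 1 - 1 / (2 * H0 / (H0 + H1)) = (H0 - H1) / (2 * H0) := by
        field_simp
        ring
      rw [this]

lemma scalar3 {lam H0 H1 : ℝ} (hl : 0 < lam) (hl1 : lam < 1) (h0 : 0 ≤ H0) (h1 : 0 ≤ H1) :
    1 / Mf lam (xpar H0 H1) * (H0 ^ (1 - lam) + H1 ^ (1 - lam)) ≤
      2 ^ lam * (H0 + H1) ^ (1 - lam) := by
  have key : ∀ a b : ℝ, 0 ≤ a → 0 ≤ b → b ≤ a →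
      1 / Mf lam (xpar a b) * (a ^ (1 - lam) + b ^ (1 - lam)) ≤
      2 ^ lam * (a + b) ^ (1 - lam) := by
    intro a b ha hb hba
    rcases ha.eq_or_lt with h | h
    · have hb0 : b = 0 := by linarith
      have hne : 1 - lam ≠ 0 := by linarith
      rw [← h, hb0]
      simp [Real.zero_rpow hne]
    · have hS : 0 < a + b := by linarith
      have hx := xpar_bounds ha hb
      have hM : 0 < Mf lam (xpar a b) := Mf_pos hx.1 hx.2
      have hxe : xpar a b = 2 * a / (a + b) := by
        unfold xpar; rw [if_neg hS.ne', max_eq_left hba]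
      have ea : a = xpar a b * ((a + b) / 2) := by rw [hxe]; field_simp
      have eb : b = (2 - xpar a b) * ((a + b) / 2) := by rw [hxe]; field_simp; ring
      have e1 : a ^ (1 - lam) = (xpar a b) ^ (1 - lam) * ((a + b) / 2) ^ (1 - lam) := by
        conv_lhs => rw [ea]
        rw [Real.mul_rpow (by linarith) (by linarith)]
      have e2 : b ^ (1 - lam) = (2 - xpar a b) ^ (1 - lam) * ((a + b) / 2) ^ (1 - lam) := by
        conv_lhs => rw [eb]
        rw [Real.mul_rpow (by linarith) (by linarith)]
      have e3 : a ^ (1 - lam) + b ^ (1 - lam) =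
          2 * Mf lam (xpar a b) * ((a + b) / 2) ^ (1 - lam) := by
        rw [e1, e2]
        unfold Mf
        ring
      have e4 : (2 : ℝ) ^ (1 - lam) * 2 ^ lam = 2 := by
        rw [← Real.rpow_add (by norm_num)]
        simp
      have e5 : 2 * ((a + b) / 2) ^ (1 - lam) = 2 ^ lam * (a + b) ^ (1 - lam) := by
        rw [Real.div_rpow hS.le (by norm_num)]
        have h2 : (0 : ℝ) < 2 ^ (1 - lam) := Real.rpow_pos_of_pos (by norm_num) _
        rw [mul_div_assoc', div_eq_iff h2.ne']
        calc 2 * (a + b) ^ (1 - lam) = ((2 : ℝ) ^ (1 - lam) * 2 ^ lam) * (a + b) ^ (1 - lam) := by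
              rw [e4]
          _ = _ := by ring
      rw [e3]
      have : 1 / Mf lam (xpar a b) * (2 * Mf lam (xpar a b) * ((a + b) / 2) ^ (1 - lam)) =
          2 * ((a + b) / 2) ^ (1 - lam) := by
        field_simp
      rw [this, e5]
  rcases le_total H1 H0 with h | h
  · exact key H0 H1 h0 h1 h
  · have := key H1 H0 h1 h0 h
    rw [xpar_comm, add_comm (H0 ^ (1 - lam)), add_comm H0]
    exact this

theorem coup : CoupStatement := by
  intro α _ lam hl hl1 s
  induction s using Finset.induction_on with
  | empty =>
    intro h hh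
    refine ⟨fun _ _ => 0, fun _ _ => 1, fun _ _ => ⟨le_refl _, le_refl _, by norm_num,
      by norm_num⟩, fun φ => ?_, ?_⟩
    · simp [Ex]
    · simp
  | insert a s ha ih =>
    intro h hh
    obtain ⟨q0, x0, hq0b, hq0φ, hq0e⟩ := ih h hh
    obtain ⟨q1, x1, hq1b, hq1φ, hq1e⟩ := ih (fun g => h (insert a g)) (fun g => hh _)
    set H0 : ℝ := ∑ g ∈ s.powerset, h g with hH0
    set H1 : ℝ := ∑ g ∈ s.powerset, h (insert a g) with hH1
    have hH0nn : 0 ≤ H0 := sum_nonneg fun g _ => hh g
    have hH1nn : 0 ≤ H1 := sum_nonneg fun g _ => hh _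
    set qa : ℝ := max 0 ((H0 - H1) / (2 * H0)) with hqa
    set qb : ℝ := max 0 ((H1 - H0) / (2 * H1)) with hqb
    set xa : ℝ := xpar H0 H1 with hxa
    have hxa1 : 1 ≤ xa := (xpar_bounds hH0nn hH1nn).1
    have hxa2 : xa ≤ 2 := (xpar_bounds hH0nn hH1nn).2
    have hqax : qa ≤ 1 - 1 / xa := q_le hH0nn hH1nn
    have hqbx : qb ≤ 1 - 1 / xa := by
      rw [hxa, xpar_comm]; exact q_le hH1nn hH0nn
    have hqa0 : 0 ≤ qa := le_max_left _ _
    have hqb0 : 0 ≤ qb := le_max_left _ _
    -- the mass identity
    have hmass : (1 - qa) * H0 + qb * H1 = (H0 + H1) / 2 ∧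
        qa * H0 + (1 - qb) * H1 = (H0 + H1) / 2 := by
      rcases le_total H1 H0 with hle | hle
      · have e1 : qb = 0 := by
          rw [hqb]
          exact max_eq_left (div_nonpos_of_nonpos_of_nonneg (by linarith) (by linarith))
        have e2 : qa * H0 = (H0 - H1) / 2 := by
          rw [hqa, max_eq_right (div_nonneg (by linarith) (by linarith))]
          rcases hH0nn.eq_or_lt with h | h
          · have : H1 = 0 := by linarith
            rw [← h, this]; simp
          · field_simp
        rw [e1]
        constructor <;> nlinarith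
      · have e1 : qa = 0 := by
          rw [hqa]
          exact max_eq_left (div_nonpos_of_nonpos_of_nonneg (by linarith) (by linarith))
        have e2 : qb * H1 = (H1 - H0) / 2 := by
          rw [hqb, max_eq_right (div_nonneg (by linarith) (by linarith))]
          rcases hH1nn.eq_or_lt with h | h
          · have : H0 = 0 := by linarith
            rw [← h, this]; simp
          · field_simp
        rw [e1]
        constructor <;> nlinarith
    have hnot : ∀ g ∈ s.powerset, a ∉ g := fun g hg h => ha (mem_powerset.1 hg h)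
    refine ⟨fun g e => if a ∈ g then (if e = a then qb else q1 (g.erase a) e)
        else (if e = a then qa else q0 g e),
      fun g e => if e = a then xa else (if a ∈ g then x1 (g.erase a) e else x0 g e), ?_, ?_, ?_⟩
    · intro g e
      dsimp only
      by_cases hag : a ∈ g
      · by_cases hea : e = a
        · simp only [hag, hea, if_true]
          exact ⟨hqb0, hxa1, hxa2, hqbx⟩
        · simp only [hag, hea, if_true, if_false]
          exact hq1b _ _
      · by_cases hea : e = a
        · simp only [hag, hea, if_true, if_false]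
          exact ⟨hqa0, hxa1, hxa2, hqax⟩
        · simp only [hag, hea, if_false]
          exact hq0b _ _
    · intro φ
      rw [sum_powerset_insert ha, sum_powerset_insert ha, sum_powerset_insert ha]
      have e0 : ∀ g ∈ s.powerset, h g * Ex (fun e => if a ∈ g then
            (if e = a then qb else q1 (g.erase a) e)
          else (if e = a then qa else q0 g e)) (insert a s) (fun J => φ (symmDiff g J))
          = (1 - qa) * (h g * Ex (q0 g) s (fun J => φ (symmDiff g J)))
            + qa * (h g * Ex (q0 g) s (fun J => φ (insert a (symmDiff g J)))) := by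
        intro g hg
        have hag : a ∉ g := hnot g hg
        rw [Ex_insert _ ha]
        simp only [if_neg hag, if_true]
        have t1 : Ex (fun e => if e = a then qa else q0 g e) s (fun J => φ (symmDiff g J))
            = Ex (q0 g) s (fun J => φ (symmDiff g J)) := by
          refine Ex_congr (fun e he => ?_) (fun J _ => rfl)
          rw [if_neg (ne_of_mem_of_not_mem he ha)]
        have t2 : Ex (fun e => if e = a then qa else q0 g e) s
              (fun J => φ (symmDiff g (insert a J)))
            = Ex (q0 g) s (fun J => φ (insert a (symmDiff g J))) := by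
          refine Ex_congr (fun e he => ?_) (fun J hJ => ?_)
          · rw [if_neg (ne_of_mem_of_not_mem he ha)]
          · congr 1
            ext x
            simp only [mem_symmDiff, mem_insert]
            by_cases hx : x = a
            · subst hx
              have : x ∉ J := fun h => ha (hJ h)
              simp [hag]
            · simp [hx]
        rw [t1, t2]
        ring
      have e1 : ∀ g ∈ s.powerset, h (insert a g) * Ex (fun e => if a ∈ insert a g then
            (if e = a then qb else q1 ((insert a g).erase a) e)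
          else (if e = a then qa else q0 (insert a g) e)) (insert a s)
            (fun J => φ (symmDiff (insert a g) J))
          = (1 - qb) * (h (insert a g) * Ex (q1 g) s (fun J => φ (insert a (symmDiff g J))))
            + qb * (h (insert a g) * Ex (q1 g) s (fun J => φ (symmDiff g J))) := by
        intro g hg
        have hag : a ∉ g := hnot g hg
        rw [Ex_insert _ ha]
        simp only [mem_insert_self, if_true]
        have t1 : Ex (fun e => if e = a then qb else q1 ((insert a g).erase a) e) s
              (fun J => φ (symmDiff (insert a g) J))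
            = Ex (q1 g) s (fun J => φ (insert a (symmDiff g J))) := by
          refine Ex_congr (fun e he => ?_) (fun J hJ => ?_)
          · rw [if_neg (ne_of_mem_of_not_mem he ha), erase_insert hag]
          · congr 1
            ext x
            simp only [mem_symmDiff, mem_insert]
            by_cases hx : x = a
            · subst hx
              have : x ∉ J := fun h => ha (hJ h)
              simp [this]
            · simp [hx]
        have t2 : Ex (fun e => if e = a then qb else q1 ((insert a g).erase a) e) s
              (fun J => φ (symmDiff (insert a g) (insert a J)))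
            = Ex (q1 g) s (fun J => φ (symmDiff g J)) := by
          refine Ex_congr (fun e he => ?_) (fun J hJ => ?_)
          · rw [if_neg (ne_of_mem_of_not_mem he ha), erase_insert hag]
          · congr 1
            ext x
            simp only [mem_symmDiff, mem_insert]
            by_cases hx : x = a
            · subst hx
              have : x ∉ J := fun h => ha (hJ h)
              simp [hag, this]
            · simp [hx]
        rw [t1, t2]
        ring
      rw [sum_congr rfl e0, sum_congr rfl e1, sum_add_distrib, sum_add_distrib, ← mul_sum,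
        ← mul_sum, ← mul_sum, ← mul_sum]
      have f0 := hq0φ φ
      have f1 := hq0φ (fun G => φ (insert a G))
      have f2 := hq1φ φ
      have f3 := hq1φ (fun G => φ (insert a G))
      rw [card_insert_of_notMem ha, pow_succ]
      set A := ∑ G ∈ s.powerset, φ G
      set B := ∑ G ∈ s.powerset, φ (insert a G)
      set X0 := ∑ g ∈ s.powerset, h g * Ex (q0 g) s (fun J => φ (symmDiff g J))
      set X1 := ∑ g ∈ s.powerset, h g * Ex (q0 g) s (fun J => φ (insert a (symmDiff g J)))
      set X2 := ∑ g ∈ s.powerset, h (insert a g) * Ex (q1 g) s (fun J => φ (symmDiff g J))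
      set X3 := ∑ g ∈ s.powerset, h (insert a g)
        * Ex (q1 g) s (fun J => φ (insert a (symmDiff g J)))
      have : (2 : ℝ) ^ s.card * 2 * ((1 - qa) * X0 + qa * X1 + ((1 - qb) * X3 + qb * X2))
          = 2 * (1 - qa) * (2 ^ s.card * X0) + 2 * qa * (2 ^ s.card * X1)
            + 2 * (1 - qb) * (2 ^ s.card * X3) + 2 * qb * (2 ^ s.card * X2) := by ring
      rw [this, ← f0, ← f1, ← f2, ← f3]
      have h1 : 2 * (1 - qa) * (H0 * A) + 2 * qa * (H0 * B) + 2 * (1 - qb) * (H1 * B)
          + 2 * qb * (H1 * A) = 2 * ((1 - qa) * H0 + qb * H1) * A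
            + 2 * (qa * H0 + (1 - qb) * H1) * B := by ring
      rw [h1, hmass.1, hmass.2]
      ring
    · rw [sum_powerset_insert ha, sum_powerset_insert ha]
      have e0 : ∀ g ∈ s.powerset, (h g) ^ (1 - lam) * ∏ e ∈ insert a s,
          (1 / Mf lam (if e = a then xa else (if a ∈ g then x1 (g.erase a) e else x0 g e)))
          = (1 / Mf lam xa) * ((h g) ^ (1 - lam) * ∏ e ∈ s, (1 / Mf lam (x0 g e))) := by
        intro g hg
        have hag : a ∉ g := hnot g hg
        rw [prod_insert ha, if_pos rfl]
        have : ∏ e ∈ s, (1 / Mf lam (if e = a then xa else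
            (if a ∈ g then x1 (g.erase a) e else x0 g e))) = ∏ e ∈ s, (1 / Mf lam (x0 g e)) := by
          refine prod_congr rfl fun e he => ?_
          rw [if_neg (ne_of_mem_of_not_mem he ha), if_neg hag]
        rw [this]
        ring
      have e1 : ∀ g ∈ s.powerset, (h (insert a g)) ^ (1 - lam) * ∏ e ∈ insert a s,
          (1 / Mf lam (if e = a then xa else
            (if a ∈ insert a g then x1 ((insert a g).erase a) e else x0 (insert a g) e)))
          = (1 / Mf lam xa) * ((h (insert a g)) ^ (1 - lam) *
            ∏ e ∈ s, (1 / Mf lam (x1 g e))) := by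
        intro g hg
        have hag : a ∉ g := hnot g hg
        rw [prod_insert ha, if_pos rfl]
        have : ∏ e ∈ s, (1 / Mf lam (if e = a then xa else
            (if a ∈ insert a g then x1 ((insert a g).erase a) e else x0 (insert a g) e)))
            = ∏ e ∈ s, (1 / Mf lam (x1 g e)) := by
          refine prod_congr rfl fun e he => ?_
          rw [if_neg (ne_of_mem_of_not_mem he ha), if_pos (mem_insert_self a g),
            erase_insert hag]
        rw [this]
        ring
      rw [sum_congr rfl e0, sum_congr rfl e1, ← mul_sum, ← mul_sum, card_insert_of_notMem ha]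
      have hM : 0 < Mf lam xa := Mf_pos hxa1 hxa2
      have hM' : 0 ≤ 1 / Mf lam xa := by positivity
      have hP : (0 : ℝ) ≤ ((2 : ℝ) ^ s.card) ^ lam := by positivity
      have key := scalar3 hl hl1 hH0nn hH1nn
      rw [← hxa] at key
      calc 1 / Mf lam xa * ∑ g ∈ s.powerset, (h g) ^ (1 - lam) * ∏ e ∈ s, (1 / Mf lam (x0 g e))
            + 1 / Mf lam xa * ∑ g ∈ s.powerset,
              (h (insert a g)) ^ (1 - lam) * ∏ e ∈ s, (1 / Mf lam (x1 g e))
          ≤ 1 / Mf lam xa * (((2 : ℝ) ^ s.card) ^ lam * H0 ^ (1 - lam))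
            + 1 / Mf lam xa * (((2 : ℝ) ^ s.card) ^ lam * H1 ^ (1 - lam)) :=
            add_le_add (mul_le_mul_of_nonneg_left hq0e hM') (mul_le_mul_of_nonneg_left hq1e hM')
        _ = ((2 : ℝ) ^ s.card) ^ lam *
              (1 / Mf lam xa * (H0 ^ (1 - lam) + H1 ^ (1 - lam))) := by ring
        _ ≤ ((2 : ℝ) ^ s.card) ^ lam * (2 ^ lam * (H0 + H1) ^ (1 - lam)) :=
            mul_le_mul_of_nonneg_left key hP
        _ = ((2 : ℝ) ^ (s.card + 1)) ^ lam * (H0 + H1) ^ (1 - lam) := by
            rw [pow_succ, Real.mul_rpow (by positivity) (by norm_num)]; ring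

end Pool.Agent.E8helper82.SI
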